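import Mathlib
import Pool.Agent.Helper949.TB.Main

set_option autoImplicit false
open MeasureTheory Metric

namespace Pool.Agent.Results.MP_7d358c_an.ThreeBalls

/-- The `k`-th eigenvalue of the Dirichlet Laplacian on the open set `Ω ⊆ ℝ^N`, counted with
multiplicity, given by the min-max formula over `k`-dimensional spaces of smooth functions with
compact support in `Ω`: the infimum of the real numbers `c` for which there is a `k`-dimensional
space `V` of such functions with `∫ |∇v|² ≤ c ∫ v²` for all `v ∈ V`. -/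
noncomputable def dirichletEigenvalue (N k : ℕ) (Ω : Set (EuclideanSpace ℝ (Fin N))) : ℝ :=
  sInf {c : ℝ | ∃ V : Submodule ℝ (EuclideanSpace ℝ (Fin N) → ℝ),
    Module.finrank ℝ V = k ∧
    ∀ v ∈ V, ContDiff ℝ (⊤ : ℕ∞) v ∧ HasCompactSupport v ∧ tsupport v ⊆ Ω ∧
      ∫ x, ‖fderiv ℝ v x‖ ^ 2 ≤ c * ∫ x, v x ^ 2}

/-- `λ_k^*`: the infimum of the `k`-th Dirichlet eigenvalue over the open sets of volume `1`. -/
noncomputable def optimalEigenvalue (N k : ℕ) : ℝ :=
  sInf {l : ℝ | ∃ Ω : Set (EuclideanSpace ℝ (Fin N)),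
    IsOpen Ω ∧ volume Ω = 1 ∧ l = dirichletEigenvalue N k Ω}

/-- `Ω` is the union of three pairwise disjoint open balls, each of volume `1/3`. -/
def IsThreeBallUnion (N : ℕ) (Ω : Set (EuclideanSpace ℝ (Fin N))) : Prop :=
  ∃ (q : Fin 3 → EuclideanSpace ℝ (Fin N)) (r : Fin 3 → ℝ),
    (∀ i, volume (ball (q i) (r i)) = ENNReal.ofReal (1 / 3)) ∧
    (∀ i j, i ≠ j → Disjoint (ball (q i) (r i)) (ball (q j) (r j))) ∧
    Ω = ⋃ i, ball (q i) (r i)

/-- In every dimension `N ≥ 2`, no union of three disjoint balls of volume `1/3` minimizes the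
third Dirichlet eigenvalue: some open set of volume `1` has a strictly smaller third eigenvalue,
and so `λ_3^*` is strictly smaller than the third eigenvalue of the three balls. -/
theorem result (N : ℕ) (hN : 2 ≤ N) (Ω₀ : Set (EuclideanSpace ℝ (Fin N)))
    (hΩ₀ : IsThreeBallUnion N Ω₀) :
    (∃ Ω : Set (EuclideanSpace ℝ (Fin N)), IsOpen Ω ∧ volume Ω = 1 ∧
      dirichletEigenvalue N 3 Ω < dirichletEigenvalue N 3 Ω₀) ∧
    optimalEigenvalue N 3 < dirichletEigenvalue N 3 Ω₀ :=
  Pool.Agent.Helper949.TB.three_balls_not_optimal N hN Ω₀ hΩ₀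

end Pool.Agent.Results.MP_7d358c_an.ThreeBalls
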